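import Mathlib

/-!
# Finiteness of the points over a quadratic field from the finiteness over `ℚ` of the curve and its twist
-/

set_option autoImplicit false

namespace Pool.Agent.N817.MI

open WeierstrassCurve Affine

/-- `y² = x³ + a x + b` -/
def SW (F : Type) [Field F] (a b : ℤ) : WeierstrassCurve F :=
  { a₁ := 0, a₂ := 0, a₃ := 0, a₄ := (a : F), a₆ := (b : F) }

theorem SW_bc (K : Type) [Field K] [Algebra ℚ K] (a b : ℤ) :
    (SW ℚ a b).baseChange K = SW K a b := by
  ext <;> simp [SW, WeierstrassCurve.baseChange, WeierstrassCurve.map]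

/-- the coordinates -/
def co {F : Type} [Field F] {W : WeierstrassCurve F} : W.toAffine.Point → Option (F × F)
  | .zero => none
  | .some x y _ => some (x, y)

theorem co_inj {F : Type} [Field F] {W : WeierstrassCurve F} :
    Function.Injective (co (W := W)) := by
  rintro (_ | ⟨x, y, h⟩) (_ | ⟨x', y', h'⟩) hc
  · rfl
  · simp [co] at hc
  · simp [co] at hc
  · simp only [co, Option.some.injEq, Prod.mk.injEq] at hc
    obtain ⟨rfl, rfl⟩ := hc
    rfl

/-- the set of the affine points -/
def AP (F : Type) [Field F] (a b : ℤ) : Set (F × F) :=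
  {q | q.2 ^ 2 = q.1 ^ 3 + (a : F) * q.1 + (b : F)}

theorem eq_iff {F : Type} [Field F] (a b : ℤ) (x y : F) :
    (SW F a b).toAffine.Equation x y ↔ y ^ 2 = x ^ 3 + (a : F) * x + (b : F) := by
  rw [Affine.equation_iff]
  simp only [SW]
  constructor <;> intro h <;> linear_combination h

theorem disc {F : Type} [Field F] (a b : ℤ) :
    (SW F a b).Δ = ((-16 * (4 * a ^ 3 + 27 * b ^ 2) : ℤ) : F) := by
  simp only [WeierstrassCurve.Δ, WeierstrassCurve.b₂, WeierstrassCurve.b₄, WeierstrassCurve.b₆,
    WeierstrassCurve.b₈, SW]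
  push_cast
  ring

/-- the affine points of a curve with finitely many points -/
theorem ap_fin {F : Type} [Field F] [CharZero F] {a b : ℤ} (h0 : 4 * a ^ 3 + 27 * b ^ 2 ≠ 0)
    (h : Finite (SW F a b).toAffine.Point) : (AP F a b).Finite := by
  have hΔ : (SW F a b).toAffine.Δ ≠ 0 := by
    show (SW F a b).Δ ≠ 0
    rw [disc, Int.cast_ne_zero]
    exact mul_ne_zero (by norm_num) h0
  have h1 : (some '' (AP F a b) : Set (Option (F × F))) ⊆ Set.range (co (W := SW F a b)) := by
    rintro _ ⟨⟨x, y⟩, hq, rfl⟩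
    exact ⟨.some x y ((Affine.equation_iff_nonsingular_of_Δ_ne_zero hΔ).1 ((eq_iff a b x y).2 hq)), rfl⟩
  have h2 : (Set.range (co (W := SW F a b))).Finite := Set.finite_range _
  exact Set.Finite.of_finite_image (h2.subset h1) (Option.some_injective _).injOn

/-- the points of order two -/
theorem two_fin {F : Type} [Field F] [CharZero F] [DecidableEq F] (W : WeierstrassCurve F) (a b : ℤ)
    (hW : W = SW F a b) : {P : W.toAffine.Point | P + P = 0}.Finite := by
  subst hW
  have h1 : {x : F | x ^ 3 + (a : F) * x + (b : F) = 0}.Finite := by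
    open Polynomial in
    have hp : ((X : F[X]) ^ 3 + C (a : F) * X + C (b : F)) ≠ 0 := by
      have hm : ((X : F[X]) ^ 3 + C (a : F) * X + C (b : F)).Monic := by
        rw [add_assoc]
        refine Polynomial.monic_X_pow_add (lt_of_le_of_lt (Polynomial.degree_linear_le) ?_)
        norm_num
      exact hm.ne_zero
    open Polynomial in
    refine Set.Finite.subset ((((X : F[X]) ^ 3 + C (a : F) * X + C (b : F)).roots.toFinset).finite_toSet) ?_
    intro x hx
    rw [Finset.mem_coe, Multiset.mem_toFinset, Polynomial.mem_roots hp]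
    simpa [Polynomial.IsRoot] using hx
  have h2 : (co '' {P : (SW F a b).toAffine.Point | P + P = 0}) ⊆
      {none} ∪ (fun x => some (x, (0 : F))) '' {x : F | x ^ 3 + (a : F) * x + (b : F) = 0} := by
    rintro _ ⟨P, hP, rfl⟩
    rcases P with _ | ⟨x, y, h⟩
    · left; rfl
    · right
      have h3 : (Affine.Point.some x y h : (SW F a b).toAffine.Point) = -Affine.Point.some x y h :=
        eq_neg_of_add_eq_zero_left hP
      rw [Affine.Point.neg_some, Affine.Point.some.injEq] at h3
      have h4 : y = -y := by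
        have := h3.2
        simpa [Affine.negY, SW] using this
      have h5 : y = 0 := by
        have : (2 : F) * y = 0 := by linear_combination h4
        exact (mul_eq_zero.1 this).resolve_left two_ne_zero
      subst h5
      refine ⟨x, ?_, rfl⟩
      have h6 := (eq_iff a b x 0).1 h.1
      show x ^ 3 + (a : F) * x + (b : F) = 0
      rw [← h6]
      ring
  refine Set.Finite.of_finite_image (((Set.finite_singleton _).union (h1.image _)).subset h2) co_inj.injOn

/-- fibres of the doubling -/
theorem fibre_fin {A : Type} [AddCommGroup A] (h2 : {P : A | P + P = 0}.Finite) (S : Set A)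
    (hS : S.Finite) (h : ∀ P : A, P + P ∈ S) : Finite A := by
  have h3 : ((fun P : A => P + P) ⁻¹' S).Finite := by
    refine Set.Finite.preimage' hS fun R _ => ?_
    by_cases hR : ∃ P₀ : A, P₀ + P₀ = R
    · obtain ⟨P₀, h0⟩ := hR
      refine (h2.image fun Q => P₀ + Q).subset ?_
      intro P hP
      refine ⟨P - P₀, ?_, add_sub_cancel P₀ P⟩
      have h4 : P + P = R := hP
      show (P - P₀) + (P - P₀) = 0
      have : (P - P₀) + (P - P₀) = (P + P) - (P₀ + P₀) := by abel
      rw [this, h4, h0, sub_self]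
    · refine Set.Finite.subset Set.finite_empty ?_
      intro P hP
      exact hR ⟨P, hP⟩
  have h4 : (Set.univ : Set A).Finite := h3.subset fun P _ => h P
  exact Set.finite_univ_iff.1 h4

section
variable {K : Type} [Field K] [NumberField K]

/-- **the points over a quadratic field** -/
theorem quad_fin {a b d : ℤ} (h0 : 4 * a ^ 3 + 27 * b ^ 2 ≠ 0) (hd : d ≠ 0)
    (h1 : Finite (SW ℚ a b).toAffine.Point)
    (h2 : Finite (SW ℚ (a * d ^ 2) (b * d ^ 3)).toAffine.Point)
    (hK : Module.finrank ℚ K = 2) {s : K} (hs : s ^ 2 = (d : K))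
    (hns : ∀ q : ℚ, q ^ 2 ≠ (d : ℚ)) : Finite (SW K a b).toAffine.Point := by
  classical
  -- coordinates with respect to `1, s`
  have hco : ∀ x : K, ∃ u v : ℚ, x = (u : K) + (v : K) * s := by
    have hli : LinearIndependent ℚ ![(1 : K), s] := by
      rw [LinearIndependent.pair_iff]
      intro c t h
      rw [Algebra.smul_def, Algebra.smul_def, mul_one, eq_ratCast, eq_ratCast] at h
      have ht : t = 0 := by
        by_contra ht
        have h1 : s = ((-c / t : ℚ) : K) := by
          have : (t : K) ≠ 0 := by exact_mod_cast ht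
          rw [Rat.cast_div, Rat.cast_neg, eq_div_iff this]
          linear_combination h
        rw [h1] at hs
        exact hns _ (by exact_mod_cast hs)
      rw [ht, Rat.cast_zero, zero_mul, add_zero] at h
      exact ⟨by exact_mod_cast h, ht⟩
    have hspan := hli.span_eq_top_of_card_eq_finrank' (by rw [hK]; rfl)
    intro x
    have hx : x ∈ Submodule.span ℚ (Set.range ![(1 : K), s]) := by rw [hspan]; trivial
    rw [Matrix.range_cons, Matrix.range_cons, Matrix.range_empty, Set.union_empty,
      Set.singleton_union, Submodule.mem_span_pair] at hx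
    obtain ⟨u, v, huv⟩ := hx
    refine ⟨u, v, ?_⟩
    rw [← huv, Algebra.smul_def, Algebra.smul_def, mul_one, eq_ratCast, eq_ratCast]
  have hs0 : s ≠ 0 := by
    rintro rfl
    rw [zero_pow two_ne_zero] at hs
    exact hd (by exact_mod_cast hs.symm)
  -- the automorphism
  obtain ⟨σ, hσ⟩ : ∃ σ : K ≃ₐ[ℚ] K, σ s = -s := by
    have : Algebra.IsQuadraticExtension ℚ K := ⟨hK⟩
    have : IsGalois ℚ K := inferInstance
    have hcard : Nat.card (K ≃ₐ[ℚ] K) = 2 := by rw [IsGalois.card_aut_eq_finrank, hK]
    have : ∃ σ : K ≃ₐ[ℚ] K, σ ≠ 1 := by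
      by_contra hall
      push Not at hall
      have : Nat.card (K ≃ₐ[ℚ] K) ≤ 1 := by
        have : Subsingleton (K ≃ₐ[ℚ] K) := ⟨fun x y => by rw [hall x, hall y]⟩
        exact Finite.card_le_one_iff_subsingleton.2 inferInstance
      omega
    obtain ⟨σ, hσ⟩ := this
    refine ⟨σ, ?_⟩
    have h3 : σ s ^ 2 = s ^ 2 := by
      rw [← map_pow, hs, map_intCast]
    rcases sq_eq_sq_iff_eq_or_eq_neg.1 h3 with h4 | h4
    · exfalso
      apply hσ
      ext x
      obtain ⟨u, v, rfl⟩ := hco x
      simp [h4]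
    · exact h4
  have hfix : ∀ x : K, σ x = x → ∃ u : ℚ, x = (u : K) := by
    intro x hx
    obtain ⟨u, v, rfl⟩ := hco x
    refine ⟨u, ?_⟩
    rw [map_add, map_mul, hσ, map_ratCast, map_ratCast] at hx
    have : (v : K) * s = 0 := by
      have h5 : (2 : K) * ((v : K) * s) = 0 := by linear_combination -hx
      exact (mul_eq_zero.1 h5).resolve_left two_ne_zero
    rw [this, add_zero]
  have hanti : ∀ x : K, σ x = -x → ∃ v : ℚ, x = (v : K) * s := by
    intro x hx
    obtain ⟨u, v, rfl⟩ := hco x
    refine ⟨v, ?_⟩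
    rw [map_add, map_mul, hσ, map_ratCast, map_ratCast] at hx
    have : (u : K) = 0 := by
      have h5 : (2 : K) * (u : K) = 0 := by linear_combination hx
      exact (mul_eq_zero.1 h5).resolve_left two_ne_zero
    rw [this, zero_add]
  -- the two finite sets
  have hA := ap_fin h0 h1
  have h0' : 4 * (a * d ^ 2) ^ 3 + 27 * (b * d ^ 3) ^ 2 ≠ 0 := by
    have : 4 * (a * d ^ 2) ^ 3 + 27 * (b * d ^ 3) ^ 2 = (4 * a ^ 3 + 27 * b ^ 2) * d ^ 6 := by ring
    rw [this]
    exact mul_ne_zero h0 (pow_ne_zero 6 hd)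
  have hB := ap_fin h0' h2
  have eW : (SW ℚ a b).baseChange K = SW K a b := SW_bc K a b
  rw [← eW]
  let W : WeierstrassCurve ℚ := SW ℚ a b
  let φ : (W.baseChange K).toAffine.Point →+ (W.baseChange K).toAffine.Point :=
    Affine.Point.map (W' := W.toAffine) (σ : K →ₐ[ℚ] K)
  have hφ : ∀ x y h, ∃ h', φ (Affine.Point.some x y h) = Affine.Point.some (σ x) (σ y) h' :=
    fun x y h => ⟨_, rfl⟩
  have hφφ : ∀ P, φ (φ P) = P := by
    have hσσ : ∀ x, σ (σ x) = x := by
      intro x
      obtain ⟨u, v, rfl⟩ := hco x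
      simp [hσ]
    rintro (_ | ⟨x, y, h⟩)
    · rfl
    · obtain ⟨h', e1⟩ := hφ x y h
      rw [e1]
      obtain ⟨h'', e2⟩ := hφ _ _ h'
      rw [e2, Affine.Point.some.injEq]
      exact ⟨hσσ x, hσσ y⟩
  have heq : ∀ {x y : K}, (W.baseChange K).toAffine.Equation x y →
      y ^ 2 = x ^ 3 + (a : K) * x + (b : K) := by
    intro x y h
    rw [eW] at h
    exact (eq_iff a b x y).1 h
  have hneg : ∀ x y h, ∃ h', -(Affine.Point.some x y h : (W.baseChange K).toAffine.Point) =
      Affine.Point.some x (-y) h' := by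
    intro x y h
    have e : (W.baseChange K).toAffine.negY x y = -y := by
      have e1 : (W.baseChange K).toAffine.a₁ = 0 := by rw [eW]; rfl
      have e3 : (W.baseChange K).toAffine.a₃ = 0 := by rw [eW]; rfl
      rw [Affine.negY, e1, e3]
      ring
    refine ⟨?_, ?_⟩
    · have := (Affine.nonsingular_neg _ _).2 h
      rwa [e] at this
    · rw [Affine.Point.neg_some, Affine.Point.some.injEq]
      exact ⟨rfl, e⟩
  set SA : Set (W.baseChange K).toAffine.Point := {P | φ P = P} with hSA
  set SB : Set (W.baseChange K).toAffine.Point := {P | φ P = -P} with hSB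
  have fA : SA.Finite := by
    have h3 : co '' SA ⊆ {none} ∪
        (fun q : ℚ × ℚ => some ((q.1 : K), (q.2 : K))) '' (AP ℚ a b) := by
      rintro _ ⟨P, hP, rfl⟩
      rcases P with _ | ⟨x, y, h⟩
      · left; rfl
      · right
        obtain ⟨h', e1⟩ := hφ x y h
        rw [hSA, Set.mem_ofPred_eq, e1, Affine.Point.some.injEq] at hP
        obtain ⟨u, hu⟩ := hfix x hP.1
        obtain ⟨v, hv⟩ := hfix y hP.2
        refine ⟨(u, v), ?_, by simp only [co]; rw [hu, hv]⟩
        have h4 := heq h.1
        rw [hu, hv] at h4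
        show v ^ 2 = u ^ 3 + (a : ℚ) * u + (b : ℚ)
        exact_mod_cast h4
    exact Set.Finite.of_finite_image (((Set.finite_singleton _).union (hA.image _)).subset h3)
      co_inj.injOn
  have fB : SB.Finite := by
    have h3 : co '' SB ⊆ {none} ∪ (fun q : ℚ × ℚ => some ((q.1 / d : K), ((q.2 / d ^ 2 : K)) * s)) ''
        (AP ℚ (a * d ^ 2) (b * d ^ 3)) := by
      rintro _ ⟨P, hP, rfl⟩
      rcases P with _ | ⟨x, y, h⟩
      · left; rfl
      · right
        obtain ⟨h', e1⟩ := hφ x y h
        obtain ⟨h'', e2⟩ := hneg x y h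
        rw [hSB, Set.mem_ofPred_eq, e1, e2, Affine.Point.some.injEq] at hP
        obtain ⟨u, hu⟩ := hfix x hP.1
        obtain ⟨v, hv⟩ := hanti y hP.2
        have hdK : (d : K) ≠ 0 := by exact_mod_cast hd
        refine ⟨(d * u, d ^ 2 * v), ?_, ?_⟩
        · have h4 := heq h.1
          rw [hu, hv, mul_pow, hs] at h4
          have h5 : v ^ 2 * (d : ℚ) = u ^ 3 + (a : ℚ) * u + (b : ℚ) := by exact_mod_cast h4
          show ((d : ℚ) ^ 2 * v) ^ 2 = (d * u) ^ 3 + ((a * d ^ 2 : ℤ) : ℚ) * (d * u) +
            ((b * d ^ 3 : ℤ) : ℚ)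
          push_cast
          linear_combination (d : ℚ) ^ 3 * h5
        · simp only [co]
          rw [hu, hv]
          push_cast
          congr 2
          · field_simp
          · field_simp
    exact Set.Finite.of_finite_image (((Set.finite_singleton _).union (hB.image _)).subset h3)
      co_inj.injOn
  refine fibre_fin (two_fin _ a b eW) (Set.image2 (fun P Q => P + Q) SA SB) (fA.image2 _ fB) ?_
  intro P
  refine ⟨P + φ P, ?_, P - φ P, ?_, ?_⟩
  · show φ (P + φ P) = P + φ P
    rw [map_add, hφφ, add_comm]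
  · show φ (P - φ P) = -(P - φ P)
    rw [map_sub, hφφ, neg_sub]
  · show P + φ P + (P - φ P) = P + P
    rw [add_sub_assoc', add_right_comm, add_sub_cancel_right]

end

/-- the curve `X_0(15) : y² + x y + y = x³ + x² - 10 x - 10` -/
def X015 (F : Type) [Field F] : WeierstrassCurve F :=
  { a₁ := 1, a₂ := 1, a₃ := 1, a₄ := -10, a₆ := -10 }

theorem x015_fin {F : Type} [Field F] [CharZero F]
    (h : Finite (SW F (-12987) (-263466)).toAffine.Point) : Finite (X015 F).toAffine.Point := by
  have hA := ap_fin (F := F) (a := -12987) (b := -263466) (by norm_num) h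
  have h6 : (6 : F) ≠ 0 := by norm_num
  let ψ : (X015 F).toAffine.Point → Option (F × F) := fun P =>
    (co P).map fun q => (36 * q.1 + 15, 216 * q.2 + 108 * q.1 + 108)
  have hinj : Function.Injective ψ := by
    intro P Q hPQ
    refine co_inj (Option.map_injective ?_ hPQ)
    rintro ⟨x, y⟩ ⟨x', y'⟩ he
    simp only [Prod.mk.injEq] at he
    obtain ⟨e1, e2⟩ := he
    have ex : x = x' := by
      have : (36 : F) * (x - x') = 0 := by linear_combination e1
      exact sub_eq_zero.1 ((mul_eq_zero.1 this).resolve_left (by norm_num))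
    subst ex
    have ey : y = y' := by
      have : (216 : F) * (y - y') = 0 := by linear_combination e2
      exact sub_eq_zero.1 ((mul_eq_zero.1 this).resolve_left (by norm_num))
    rw [ey]
  have hr : Set.range ψ ⊆ {none} ∪ some '' (AP F (-12987) (-263466)) := by
    rintro _ ⟨P, rfl⟩
    rcases P with _ | ⟨x, y, hxy⟩
    · left; rfl
    · right
      refine ⟨_, ?_, rfl⟩
      have h1 := (Affine.equation_iff _ _).1 hxy.1
      simp only [X015] at h1
      show (216 * y + 108 * x + 108) ^ 2 = (36 * x + 15) ^ 3 + ((-12987 : ℤ) : F) * (36 * x + 15) +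
        ((-263466 : ℤ) : F)
      push_cast
      linear_combination 46656 * h1
  have h2 : (Set.range ψ).Finite := ((Set.finite_singleton _).union (hA.image _)).subset hr
  have h3 : Finite (Set.range ψ) := h2
  exact Finite.of_injective _ (Set.rangeFactorization_injective.2 hinj)

end Pool.Agent.N817.MI
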