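import Pool.Agent.N873.F15.Dn

/-!
# The density of the squarefree integers in every odd class modulo 60
-/

set_option autoImplicit false

open Finset Filter Topology

namespace Pool.Agent.N817.MI

open Pool.Agent.N873.F15.Dn (sf sf_dens ep ep_pos)

/-- the density of the squarefree integers in a class modulo 60 prime to 60 -/
noncomputable def kap : ℝ := 6 / Real.pi ^ 2 / ep 60 / 60

theorem kap_pos : 0 < kap := by
  unfold kap
  have := ep_pos 60
  positivity

/-- the weight of an odd class -/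
def wt (a : ℕ) : ℕ :=
  if a % 3 = 0 then (if a % 5 = 0 then 8 else 10) else (if a % 5 = 0 then 12 else 15)

theorem div_lim {g : ℕ} (hg : 0 < g) :
    Tendsto (fun X : ℕ => ((X / g : ℕ) : ℝ) / X) atTop (𝓝 (1 / (g : ℝ))) := by
  have hg0 : (0 : ℝ) < g := by exact_mod_cast hg
  rw [tendsto_iff_norm_sub_tendsto_zero]
  refine squeeze_zero' (Eventually.of_forall fun _ => norm_nonneg _) ?_
    (tendsto_one_div_atTop_nhds_zero_nat (𝕜 := ℝ))
  filter_upwards [eventually_ge_atTop 1] with X hX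
  have hX0 : (0 : ℝ) < X := by exact_mod_cast hX
  have h1 : ((X / g : ℕ) : ℝ) ≤ X / g := Nat.cast_div_le
  have h2 : (X : ℝ) / g < (X / g : ℕ) + 1 := by
    rw [div_lt_iff₀ hg0]
    have := Nat.lt_mul_div_succ X hg
    rw [mul_comm] at this
    exact_mod_cast this
  have e : ((X / g : ℕ) : ℝ) / X - 1 / g = (((X / g : ℕ) : ℝ) - X / g) / X := by
    field_simp
  rw [e, Real.norm_eq_abs, abs_div, abs_of_pos hX0]
  refine div_le_div_of_nonneg_right ?_ hX0.le
  rw [abs_le]
  constructor <;> linarith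

/-- scaling of the argument -/
theorem scale_lim {F : ℕ → ℝ} {L : ℝ} (hF : Tendsto (fun X : ℕ => F X / X) atTop (𝓝 L)) {g : ℕ}
    (hg : 0 < g) : Tendsto (fun X : ℕ => F (X / g) / X) atTop (𝓝 (L / g)) := by
  have h1 : Tendsto (fun X : ℕ => X / g) atTop atTop := by
    refine tendsto_atTop.2 fun b => ?_
    filter_upwards [eventually_ge_atTop (b * g)] with X hX
    exact (Nat.le_div_iff_mul_le hg).2 hX
  have h2 := (hF.comp h1).mul (div_lim hg)
  rw [mul_one_div] at h2
  refine h2.congr' ?_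
  filter_upwards [h1.eventually_ge_atTop 1] with X hX
  have h3 : ((X / g : ℕ) : ℝ) ≠ 0 := by
    have : 0 < X / g := hX
    exact_mod_cast this.ne'
  show F (X / g) / ((X / g : ℕ) : ℝ) * (((X / g : ℕ) : ℝ) / X) = F (X / g) / X
  rw [div_mul_div_cancel₀ h3]

/-- the classes `b` prime to 60 with `g b = a` modulo 60 -/
def BB (g a : ℕ) : Finset ℕ := (range 60).filter fun b => b.Coprime 60 ∧ (g * b) % 60 = a

theorem sf_div {g a : ℕ} (hg : g = 3 ∨ g = 5 ∨ g = 15) (ha : a.gcd 60 = g) (X : ℕ) :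
    sf 60 a X = ∑ b ∈ BB g a, sf 60 b (X / g) := by
  classical
  have hg0 : 0 < g := by omega
  have h1 : ((Icc 1 (X / g)).filter fun m => Squarefree m ∧ m % 60 ∈ BB g a).card =
      ∑ b ∈ BB g a, sf 60 b (X / g) := by
    rw [card_eq_sum_card_fiberwise (f := fun m => m % 60) (t := BB g a)
      (fun m hm => by
        have := (mem_filter.1 (mem_coe.1 hm)).2.2
        exact mem_coe.2 this)]
    refine sum_congr rfl fun b hb => ?_
    unfold Pool.Agent.N873.F15.Dn.sf
    rw [filter_filter]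
    congr 1
    ext m
    simp only [mem_filter]
    constructor
    · rintro ⟨i1, ⟨i2, i3⟩, i4⟩
      exact ⟨i1, i2, i4⟩
    · rintro ⟨i1, i2, i3⟩
      exact ⟨i1, ⟨i2, by rw [i3]; exact hb⟩, i3⟩
  rw [← h1]
  unfold Pool.Agent.N873.F15.Dn.sf
  symm
  refine card_bij (fun m _ => g * m) ?_ ?_ ?_
  · intro m hm
    obtain ⟨h2, h3, h4⟩ := mem_filter.1 hm
    rw [mem_Icc] at h2
    obtain ⟨h5, h6, h7⟩ := mem_filter.1 h4
    have h8 : g * (X / g) ≤ X := Nat.mul_div_le X g
    have h9 : g * m ≤ g * (X / g) := Nat.mul_le_mul_left g h2.2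
    have hcop : m.Coprime 60 := by
      have : (m % 60).gcd 60 = m.gcd 60 := by
        rw [Nat.gcd_comm m 60, Nat.gcd_rec 60 m]
      unfold Nat.Coprime
      rw [← this]
      exact h6
    refine mem_filter.2 ⟨mem_Icc.2 ⟨by nlinarith, by omega⟩, ?_, ?_⟩
    · have hgc : g.Coprime m := by
        refine Nat.Coprime.coprime_dvd_left ?_ hcop.symm
        rcases hg with rfl | rfl | rfl <;> norm_num
      rw [Nat.squarefree_mul hgc]
      refine ⟨?_, h3⟩
      rcases hg with rfl | rfl | rfl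
      · exact Nat.prime_three.squarefree
      · exact Nat.prime_five.squarefree
      · rw [show (15 : ℕ) = 3 * 5 from rfl, Nat.squarefree_mul (by norm_num)]
        exact ⟨Nat.prime_three.squarefree, Nat.prime_five.squarefree⟩
    · rw [← h7, Nat.mul_mod, Nat.mul_mod g (m % 60), Nat.mod_mod]
  · intro m _ m' _ h
    exact Nat.eq_of_mul_eq_mul_left hg0 h
  · intro n hn
    obtain ⟨h2, h3, h4⟩ := mem_filter.1 hn
    rw [mem_Icc] at h2
    have hgn : g ∣ n := by
      have h5 : g ∣ a := ha ▸ Nat.gcd_dvd_left a 60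
      have h6 : g ∣ 60 := ha ▸ Nat.gcd_dvd_right a 60
      exact (Nat.dvd_mod_iff h6).1 (h4 ▸ h5)
    obtain ⟨m, rfl⟩ := hgn
    have hm0 : 0 < m := by
      rcases Nat.eq_zero_or_pos m with h | h
      · subst h
        omega
      · exact h
    have hcg : g.Coprime m := by
      rw [Nat.squarefree_mul_iff] at h3
      exact h3.1
    have hmsq : Squarefree m := h3.squarefree_of_dvd (Dvd.intro_left g rfl)
    have hgcd : (g * m).gcd 60 = g := by
      have : ((g * m) % 60).gcd 60 = (g * m).gcd 60 := by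
        rw [Nat.gcd_comm (g * m) 60, Nat.gcd_rec 60 (g * m)]
      rw [← this, h4, ha]
    have hmc : m.Coprime 60 := by
      obtain ⟨k, hk⟩ : ∃ k, 60 = g * k := by
        rcases hg with rfl | rfl | rfl
        · exact ⟨20, rfl⟩
        · exact ⟨12, rfl⟩
        · exact ⟨4, rfl⟩
      rw [hk, Nat.gcd_mul_left] at hgcd
      have hmk : m.Coprime k := by
        unfold Nat.Coprime
        exact Nat.eq_of_mul_eq_mul_left hg0 (by rw [hgcd, mul_one])
      rw [hk]
      exact Nat.Coprime.mul_right hcg.symm hmk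
    refine ⟨m, mem_filter.2 ⟨mem_Icc.2 ⟨hm0, ?_⟩, hmsq, ?_⟩, rfl⟩
    · exact (Nat.le_div_iff_mul_le hg0).2 (by rw [mul_comm]; exact h2.2)
    · refine mem_filter.2 ⟨mem_range.2 (Nat.mod_lt _ (by norm_num)), ?_, ?_⟩
      · have : (m % 60).gcd 60 = m.gcd 60 := by
          rw [Nat.gcd_comm m 60, Nat.gcd_rec 60 m]
        unfold Nat.Coprime
        rw [this]
        exact hmc
      · rw [← h4, Nat.mul_mod, Nat.mod_mod, ← Nat.mul_mod]

theorem BB_card : ∀ a ∈ range 60, a % 2 = 1 → ∀ g ∈ ({3, 5, 15} : Finset ℕ), a.gcd 60 = g →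
    15 * (BB g a).card = g * wt a := by decide +kernel

theorem gcd_cases : ∀ a ∈ range 60, a % 2 = 1 → (a.gcd 60 = 1 ∧ wt a = 15) ∨
    a.gcd 60 ∈ ({3, 5, 15} : Finset ℕ) := by decide +kernel

/-- **the density of the squarefree integers in an odd class modulo 60** -/
theorem sf_all {a : ℕ} (ha : a < 60) (ho : a % 2 = 1) :
    Tendsto (fun X : ℕ => (sf 60 a X : ℝ) / X) atTop (𝓝 (kap * wt a / 15)) := by
  rcases gcd_cases a (mem_range.2 ha) ho with ⟨h1, h2⟩ | h1
  · have h := sf_dens (N := 60) (by norm_num) ha h1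
    rw [h2]
    have e : kap * ((15 : ℕ) : ℝ) / 15 = 6 / Real.pi ^ 2 / ep 60 / ((60 : ℕ) : ℝ) := by
      unfold kap
      push_cast
      ring
    rw [e]
    exact h
  · obtain ⟨g, hg⟩ : ∃ g, a.gcd 60 = g := ⟨_, rfl⟩
    rw [hg] at h1
    have hc := BB_card a (mem_range.2 ha) ho g h1 hg
    have hg' : g = 3 ∨ g = 5 ∨ g = 15 := by
      simpa only [mem_insert, mem_singleton] using h1
    have hg0 : 0 < g := by omega
    have hgR : (g : ℝ) ≠ 0 := by exact_mod_cast hg0.ne'
    have h3 : Tendsto (fun X : ℕ => ∑ b ∈ BB g a, (sf 60 b (X / g) : ℝ) / X) atTop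
        (𝓝 (∑ b ∈ BB g a, kap / g)) := by
      refine tendsto_finset_sum _ fun b hb => ?_
      obtain ⟨i1, i2, -⟩ := mem_filter.1 hb
      have h4 := sf_dens (N := 60) (by norm_num) (mem_range.1 i1) i2
      exact scale_lim (F := fun X => (sf 60 b X : ℝ)) h4 hg0
    have e : ∑ b ∈ BB g a, kap / g = kap * wt a / 15 := by
      rw [sum_const, nsmul_eq_mul]
      have hcR : (15 : ℝ) * ((BB g a).card : ℝ) = g * wt a := by exact_mod_cast hc
      have : ((BB g a).card : ℝ) = g * wt a / 15 := by linarith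
      rw [this]
      field_simp
    rw [e] at h3
    refine h3.congr fun X => ?_
    rw [sf_div hg' hg, ← sum_div]
    push_cast
    rfl

end Pool.Agent.N817.MI
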