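import Pool.Agent.N916.PQ.Half
import Pool.Agent.N817.MI.C1

/-!
# Densities among the imaginary quadratic fields
-/

set_option autoImplicit false

open Finset Filter Topology

open scoped Classical

namespace Pool.Agent.N817.MI

open Pool.Agent.N919.BS (NN NS NF HG NS_eq NF_eq UU)
open Pool.Agent.N916.PQ (fi NN_w)

/-- the total weight of the classes -/
def tw (f : ℤ → Bool) (k c : ℕ) : ℤ := ∑ a ∈ range 60, fi f (-1) k c a * wt a

/-- periodicity -/
def Per60 (f : ℤ → Bool) : Prop := ∀ (k n : ℕ), (k = 1 ∨ k = 2) → n % 2 = 1 →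
  f ((-1) * (k * n : ℕ)) = f ((-1) * (k * (n % 60) : ℕ))

theorem NN_lim {f : ℤ → Bool} (hf : Per60 f) {k c : ℕ} (hk : k = 1 ∨ k = 2) (hc : c = 1 ∨ c = 3) :
    Tendsto (fun Y : ℕ => (NN (fun d => f d = true) (-1) k c Y : ℝ) / Y) atTop
      (𝓝 (kap * tw f k c / 15)) := by
  have h1 : ∀ Y : ℕ, (NN (fun d => f d = true) (-1) k c Y : ℝ) / Y =
      ∑ a ∈ range 60, (fi f (-1) k c a : ℝ) * (((UU 60 a Y).card : ℝ) / Y) := by
    intro Y
    rw [NN_w (M := 60) (by norm_num) (by norm_num) f (-1) k c hc (fun n hn => hf k n hk hn) Y,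
      sum_div]
    exact sum_congr rfl fun a _ => by rw [mul_div_assoc]
  have h2 : kap * (tw f k c : ℝ) / 15 = ∑ a ∈ range 60, (fi f (-1) k c a : ℝ) * (kap * wt a / 15) := by
    unfold tw
    push_cast
    rw [mul_sum, sum_div]
    exact sum_congr rfl fun a _ => by ring
  rw [h2]
  refine (tendsto_finsetSum _ fun a ha => ?_).congr fun Y => (h1 Y).symm
  by_cases h : a % 4 = c
  · refine Tendsto.const_mul _ ?_
    refine (sf_all (mem_range.1 ha) (by omega)).congr fun Y => ?_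
    congr 2
  · have h3 : fi f (-1) k c a = 0 := by
      unfold Pool.Agent.N916.PQ.fi
      rw [if_neg]
      exact fun h' => h h'.1
    simp only [h3, Int.cast_zero, zero_mul]
    exact tendsto_const_nhds

/-- the proportion `η` in the four classes of negative integers -/
def HM (f : ℤ → Bool) (G : ℤ → Prop) (η : ℝ) : Prop :=
  ∀ (k c : ℕ), (k = 1 ∨ k = 2) → (c = 1 ∨ c = 3) →
    ∀ ε : ℝ, 0 < ε → ∃ Y₀ : ℕ, ∀ Y : ℕ, Y₀ ≤ Y →
      |(NN (fun d => f d = true ∧ G d) (-1) k c Y : ℝ) - η * NN (fun d => f d = true) (-1) k c Y| ≤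
        ε * Y

theorem HM.of_HG {f : ℤ → Bool} {G : ℤ → Prop} {η : ℝ} (hG : HG (fun d => f d = true) G η) :
    HM f G η := fun k c hk hc => hG (-1) k c (Or.inr rfl) hk hc

theorem NN_limG {f : ℤ → Bool} (hf : Per60 f) {G : ℤ → Prop} {η : ℝ}
    (hG : HM f G η) {k c : ℕ} (hk : k = 1 ∨ k = 2) (hc : c = 1 ∨ c = 3) :
    Tendsto (fun Y : ℕ => (NN (fun d => f d = true ∧ G d) (-1) k c Y : ℝ) / Y) atTop
      (𝓝 (η * (kap * tw f k c / 15))) := by
  have h1 := (NN_lim hf hk hc).const_mul η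
  have h2 : Tendsto (fun Y : ℕ => (NN (fun d => f d = true ∧ G d) (-1) k c Y : ℝ) / Y -
      η * ((NN (fun d => f d = true) (-1) k c Y : ℝ) / Y)) atTop (𝓝 0) := by
    rw [Metric.tendsto_atTop]
    intro ε hε
    obtain ⟨Y₀, hY⟩ := hG k c hk hc (ε / 2) (by positivity)
    refine ⟨Y₀ + 1, fun Y hYY => ?_⟩
    have hY0 : (0 : ℝ) < Y := by
      have : 0 < Y := by omega
      exact_mod_cast this
    have h3 := hY Y (by omega)
    have e : (NN (fun d => f d = true ∧ G d) (-1) k c Y : ℝ) / Y -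
        η * ((NN (fun d => f d = true) (-1) k c Y : ℝ) / Y) =
        ((NN (fun d => f d = true ∧ G d) (-1) k c Y : ℝ) -
          η * NN (fun d => f d = true) (-1) k c Y) / Y := by ring
    rw [dist_zero_right, e, Real.norm_eq_abs, abs_div, abs_of_pos hY0, div_lt_iff₀ hY0]
    nlinarith
  have h3 := h2.add h1
  rw [zero_add] at h3
  refine h3.congr fun Y => ?_
  ring

theorem NN_pos (G : ℤ → Prop) {k : ℕ} (c Y : ℕ) :
    NN (fun d => d < 0 ∧ G d) 1 k c Y = 0 := by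
  unfold Pool.Agent.N919.BS.NN
  refine card_eq_zero.2 (eq_empty_of_forall_notMem fun n hn => ?_)
  simp only [mem_filter] at hn
  obtain ⟨-, -, -, h, -⟩ := hn
  have : (0 : ℤ) ≤ 1 * (k * n : ℕ) := by positivity
  omega

theorem NN_neg (G : ℤ → Prop) {k : ℕ} (hk : k = 1 ∨ k = 2) (c Y : ℕ) :
    NN (fun d => d < 0 ∧ G d) (-1) k c Y = NN G (-1) k c Y := by
  unfold Pool.Agent.N919.BS.NN
  congr 1
  ext n
  simp only [mem_filter, mem_Icc]
  constructor
  · rintro ⟨h1, h2, h3, -, h4⟩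
    exact ⟨h1, h2, h3, h4⟩
  · rintro ⟨h1, h2, h3, h4⟩
    refine ⟨h1, h2, h3, ?_, h4⟩
    rcases hk with rfl | rfl <;> push_cast <;> omega

/-- the number of the squarefree `d < 0` -/
theorem NS_neg (G : ℤ → Prop) (X : ℕ) : NS (fun d => d < 0 ∧ G d) X =
    NN G (-1) 1 1 X + NN G (-1) 1 3 X + NN G (-1) 2 1 (X / 2) + NN G (-1) 2 3 (X / 2) := by
  rw [NS_eq, NN_pos, NN_pos, NN_pos, NN_pos, NN_neg G (Or.inl rfl), NN_neg G (Or.inl rfl),
    NN_neg G (Or.inr rfl), NN_neg G (Or.inr rfl)]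
  ring

/-- the number of the negative fundamental discriminants -/
theorem NF_neg (G : ℤ → Prop) (X : ℕ) : NF (fun d => d < 0 ∧ G d) X =
    NN G (-1) 1 1 (X / 4) + NN G (-1) 1 3 X + NN G (-1) 2 1 (X / 8) + NN G (-1) 2 3 (X / 8) := by
  rw [NF_eq, NN_pos, NN_pos, NN_pos, NN_pos, NN_neg G (Or.inl rfl), NN_neg G (Or.inl rfl),
    NN_neg G (Or.inr rfl), NN_neg G (Or.inr rfl)]
  ring

section
variable {G : ℤ → Prop} {l : ℝ}

theorem NS_lim (h : ∀ k c : ℕ, (k = 1 ∨ k = 2) → (c = 1 ∨ c = 3) →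
    Tendsto (fun Y : ℕ => (NN G (-1) k c Y : ℝ) / Y) atTop (𝓝 l)) :
    Tendsto (fun X : ℕ => (NS (fun d => d < 0 ∧ G d) X : ℝ) / X) atTop (𝓝 (3 * l)) := by
  have a1 := h 1 1 (Or.inl rfl) (Or.inl rfl)
  have a2 := h 1 3 (Or.inl rfl) (Or.inr rfl)
  have a3 := scale_lim (F := fun Y => (NN G (-1) 2 1 Y : ℝ)) (h 2 1 (Or.inr rfl) (Or.inl rfl))
    (g := 2) (by norm_num)
  have a4 := scale_lim (F := fun Y => (NN G (-1) 2 3 Y : ℝ)) (h 2 3 (Or.inr rfl) (Or.inr rfl))
    (g := 2) (by norm_num)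
  have h5 := ((a1.add a2).add a3).add a4
  have e : l + l + l / ((2 : ℕ) : ℝ) + l / ((2 : ℕ) : ℝ) = 3 * l := by push_cast; ring
  rw [e] at h5
  refine h5.congr fun X => ?_
  rw [NS_neg]
  push_cast
  ring

theorem NF_lim (h : ∀ k c : ℕ, (k = 1 ∨ k = 2) → (c = 1 ∨ c = 3) →
    Tendsto (fun Y : ℕ => (NN G (-1) k c Y : ℝ) / Y) atTop (𝓝 l)) :
    Tendsto (fun X : ℕ => (NF (fun d => d < 0 ∧ G d) X : ℝ) / X) atTop (𝓝 (3 / 2 * l)) := by
  have a1 := scale_lim (F := fun Y => (NN G (-1) 1 1 Y : ℝ)) (h 1 1 (Or.inl rfl) (Or.inl rfl))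
    (g := 4) (by norm_num)
  have a2 := h 1 3 (Or.inl rfl) (Or.inr rfl)
  have a3 := scale_lim (F := fun Y => (NN G (-1) 2 1 Y : ℝ)) (h 2 1 (Or.inr rfl) (Or.inl rfl))
    (g := 8) (by norm_num)
  have a4 := scale_lim (F := fun Y => (NN G (-1) 2 3 Y : ℝ)) (h 2 3 (Or.inr rfl) (Or.inr rfl))
    (g := 8) (by norm_num)
  have h5 := ((a1.add a2).add a3).add a4
  have e : l / ((4 : ℕ) : ℝ) + l + l / ((8 : ℕ) : ℝ) + l / ((8 : ℕ) : ℝ) = 3 / 2 * l := by
    push_cast; ring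
  rw [e] at h5
  refine h5.congr fun X => ?_
  rw [NF_neg]
  push_cast
  ring

end

theorem ratio_lim {A B : ℕ → ℝ} {x y : ℝ} (hy : y ≠ 0)
    (hA : Tendsto (fun X : ℕ => A X / X) atTop (𝓝 x))
    (hB : Tendsto (fun X : ℕ => B X / X) atTop (𝓝 y)) :
    Tendsto (fun X : ℕ => A X / B X) atTop (𝓝 (x / y)) := by
  refine (hA.div hB hy).congr' ?_
  filter_upwards [eventually_ge_atTop 1] with X hX
  have : (X : ℝ) ≠ 0 := by
    have : 0 < X := hX
    exact_mod_cast this.ne'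
  show A X / X / (B X / X) = A X / B X
  rw [div_div_div_cancel_right₀ this]

theorem tw_true : ∀ k ∈ ({1, 2} : Finset ℕ), ∀ c ∈ ({1, 3} : Finset ℕ),
    tw (fun _ => true) k c = 192 := by decide +kernel

theorem true_lim {k c : ℕ} (hk : k = 1 ∨ k = 2) (hc : c = 1 ∨ c = 3) :
    Tendsto (fun Y : ℕ => (NN (fun _ => True) (-1) k c Y : ℝ) / Y) atTop (𝓝 (kap * 192 / 15)) := by
  have h := NN_lim (f := fun _ => true) (fun _ _ _ _ => rfl) hk hc
  rw [tw_true k (by simp [hk]) c (by simp [hc])] at h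
  push_cast at h
  refine h.congr fun Y => ?_
  have : NN (fun d => (fun _ : ℤ => true) d = true) (-1) k c Y = NN (fun _ => True) (-1) k c Y := by
    congr
    funext d
    exact eq_self true
  rw [this]

theorem top_lim {T : ℕ → ℝ} {y : ℝ} (hy : 0 < y)
    (hT : Tendsto (fun X : ℕ => T X / X) atTop (𝓝 y)) : Tendsto T atTop atTop := by
  have h1 := Filter.Tendsto.pos_mul_atTop hy hT tendsto_natCast_atTop_atTop
  refine h1.congr' ?_
  filter_upwards [eventually_ge_atTop 1] with X hX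
  have : (X : ℝ) ≠ 0 := by
    have : 0 < X := hX
    exact_mod_cast this.ne'
  rw [div_mul_cancel₀ _ this]

theorem top_NS : Tendsto (fun X : ℕ => (NS (fun d => d < 0 ∧ True) X : ℝ)) atTop atTop := by
  have hk := kap_pos
  exact top_lim (by positivity)
    (NS_lim (G := fun _ => True) (l := kap * 192 / 15) fun k c h2 h3 => true_lim h2 h3)

theorem top_NF : Tendsto (fun X : ℕ => (NF (fun d => d < 0 ∧ True) X : ℝ)) atTop atTop := by
  have hk := kap_pos
  exact top_lim (by positivity)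
    (NF_lim (G := fun _ => True) (l := kap * 192 / 15) fun k c h2 h3 => true_lim h2 h3)

section
variable {f : ℤ → Bool} {G : ℤ → Prop} {η : ℝ} {w : ℤ}

/-- **density among the negative squarefree integers** -/
theorem dens_NS (hf : Per60 f) (hG : HM f G η)
    (hw : ∀ k ∈ ({1, 2} : Finset ℕ), ∀ c ∈ ({1, 3} : Finset ℕ), tw f k c = w) :
    Tendsto (fun X : ℕ => (NS (fun d => d < 0 ∧ f d = true ∧ G d) X : ℝ) /
      (NS (fun d => d < 0 ∧ True) X : ℝ)) atTop (𝓝 (w * η / 192)) := by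
  have hk := kap_pos
  have h1 := NS_lim (G := fun d => f d = true ∧ G d) (l := η * (kap * w / 15)) fun k c h2 h3 => by
    have := NN_limG hf hG h2 h3
    rwa [hw k (by simp [h2]) c (by simp [h3])] at this
  have h2 := NS_lim (G := fun _ => True) (l := kap * 192 / 15) fun k c h2 h3 => true_lim h2 h3
  have h3 := ratio_lim (by positivity) h1 h2
  have e : 3 * (η * (kap * w / 15)) / (3 * (kap * 192 / 15)) = w * η / 192 := by
    field_simp
  rw [e] at h3
  exact h3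

/-- **density among the negative fundamental discriminants** -/
theorem dens_NF (hf : Per60 f) (hG : HM f G η)
    (hw : ∀ k ∈ ({1, 2} : Finset ℕ), ∀ c ∈ ({1, 3} : Finset ℕ), tw f k c = w) :
    Tendsto (fun X : ℕ => (NF (fun d => d < 0 ∧ f d = true ∧ G d) X : ℝ) /
      (NF (fun d => d < 0 ∧ True) X : ℝ)) atTop (𝓝 (w * η / 192)) := by
  have hk := kap_pos
  have h1 := NF_lim (G := fun d => f d = true ∧ G d) (l := η * (kap * w / 15)) fun k c h2 h3 => by
    have := NN_limG hf hG h2 h3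
    rwa [hw k (by simp [h2]) c (by simp [h3])] at this
  have h2 := NF_lim (G := fun _ => True) (l := kap * 192 / 15) fun k c h2 h3 => true_lim h2 h3
  have h3 := ratio_lim (by positivity) h1 h2
  have e : 3 / 2 * (η * (kap * w / 15)) / (3 / 2 * (kap * 192 / 15)) = w * η / 192 := by
    field_simp
  rw [e] at h3
  exact h3

end

open Pool.Agent.N916.PQ (f15 hf15) in
theorem per15 : Per60 f15 := fun k n hk hn => hf15.per (-1) k n (Or.inr rfl) hk hn

open Pool.Agent.N916.PQ (f15) in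
theorem tw15 : ∀ k ∈ ({1, 2} : Finset ℕ), ∀ c ∈ ({1, 3} : Finset ℕ), tw f15 k c = 100 := by
  decide +kernel

end Pool.Agent.N817.MI
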