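import Pool.Agent.N916.PQ.Main15
import Pool.Agent.N817.MI.C2

/-!
# The curve `X_0(15)` : the densities for the imaginary quadratic fields
-/

set_option autoImplicit false

open Finset Filter Topology

open scoped Classical

namespace Pool.Agent.N817.MI

open Pool.Agent.N919.BS (NN NS NF HG)
open Pool.Agent.N916.PQ
open Pool.Agent.N916.GB (eta)
open Pool.Agent.N809.PQ (Sg15 B3 B5)

/-- `3` is not inert and `5` is not split -/
def fA (m : ℤ) : Bool := decide (¬ m % 3 = 2 ∧ ¬ (m % 5 = 1 ∨ m % 5 = 4))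

theorem fA_iff {m : ℤ} : fA m = true ↔ (¬ B3 m ∧ ¬ B5 m) := by
  unfold fA Pool.Agent.N809.PQ.B3 Pool.Agent.N809.PQ.B5
  rw [decide_eq_true_iff]

theorem perA : Per60 fA := by
  intro k n hk hn
  unfold fA
  have e3 : ((-1) * (k * n : ℕ) : ℤ) % 3 = ((-1) * (k * (n % 60) : ℕ) : ℤ) % 3 := by
    rcases hk with rfl | rfl <;> push_cast <;> omega
  have e5 : ((-1) * (k * n : ℕ) : ℤ) % 5 = ((-1) * (k * (n % 60) : ℕ) : ℤ) % 5 := by
    rcases hk with rfl | rfl <;> push_cast <;> omega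
  simp only [e3, e5]

theorem twA : ∀ k ∈ ({1, 2} : Finset ℕ), ∀ c ∈ ({1, 3} : Finset ℕ), tw fA k c = 70 := by
  decide +kernel

theorem hmA : HM fA Sg15 eta := by
  intro k c hk hc
  obtain ⟨t, r, s, H⟩ := pm_all (s' := -1) (Or.inr rfl) hk hc
  refine hg_one (M := 120) (by norm_num) (by norm_num) hc eta01.1 eta01.2
    (K := KK 120 (fun m => ¬ B3 m ∧ ¬ B5 m) (-1) k c) ?_ (lahA H rfl)
  intro n hn
  rw [m120 (per3.not.and per5.not), fA_iff]

theorem hm15 : HM f15 Sg15 eta := HM.of_HG hg15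

/-- **all imaginary quadratic fields, by `|d|`** -/
theorem all_NS : Tendsto (fun X : ℕ => (NS (fun d => d < 0 ∧ f15 d = true ∧ Sg15 d) X : ℝ) /
    (NS (fun d => d < 0 ∧ True) X : ℝ)) atTop (𝓝 (25 * eta / 48)) := by
  have h := dens_NS per15 hm15 tw15
  have e : ((100 : ℤ) : ℝ) * eta / 192 = 25 * eta / 48 := by push_cast; ring
  rwa [e] at h

/-- **all imaginary quadratic fields, by the discriminant** -/
theorem all_NF : Tendsto (fun X : ℕ => (NF (fun d => d < 0 ∧ f15 d = true ∧ Sg15 d) X : ℝ) /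
    (NF (fun d => d < 0 ∧ True) X : ℝ)) atTop (𝓝 (25 * eta / 48)) := by
  have h := dens_NF per15 hm15 tw15
  have e : ((100 : ℤ) : ℝ) * eta / 192 = 25 * eta / 48 := by push_cast; ring
  rwa [e] at h

/-- the fields in which `3` is not inert and `5` is not split, by `|d|` -/
theorem cls_NS : Tendsto (fun X : ℕ => (NS (fun d => d < 0 ∧ fA d = true ∧ Sg15 d) X : ℝ) /
    (NS (fun d => d < 0 ∧ True) X : ℝ)) atTop (𝓝 (35 * eta / 96)) := by
  have h := dens_NS perA hmA twA
  have e : ((70 : ℤ) : ℝ) * eta / 192 = 35 * eta / 96 := by push_cast; ring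
  rwa [e] at h

/-- the fields in which `3` is not inert and `5` is not split, by the discriminant -/
theorem cls_NF : Tendsto (fun X : ℕ => (NF (fun d => d < 0 ∧ fA d = true ∧ Sg15 d) X : ℝ) /
    (NF (fun d => d < 0 ∧ True) X : ℝ)) atTop (𝓝 (35 * eta / 96)) := by
  have h := dens_NF perA hmA twA
  have e : ((70 : ℤ) : ℝ) * eta / 192 = 35 * eta / 96 := by push_cast; ring
  rwa [e] at h

end Pool.Agent.N817.MI
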